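import Pool.Agent.Helper80.HG.StL

set_option autoImplicit false

open Pool.Agent.Helper80.HG Filter Topology

namespace Pool.Agent.Helper14.HG

/-- the lexicographically largest element of a finite set of exponents -/
private theorem lexmax {n : ℕ} (s : Finset (Fin (n + 1) →₀ ℕ)) (hs : s.Nonempty) :
    ∃ a ∈ s, ∀ b ∈ s, b ≠ a → ∃ j, (∀ i < j, b i = a i) ∧ b j < a j := by
  obtain ⟨a, ha, hmax⟩ := Finset.exists_max_image s
    (fun b : Fin (n + 1) →₀ ℕ => toLex (fun i => b i : Fin (n + 1) → ℕ)) hs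
  refine ⟨a, ha, fun b hb hne => ?_⟩
  have h1 := hmax b hb
  have h2 : toLex (fun i => b i : Fin (n + 1) → ℕ) ≠ toLex (fun i => a i : Fin (n + 1) → ℕ) := by
    intro h
    apply hne
    ext i
    exact congrFun (toLex.injective h) i
  have h3 := lt_of_le_of_ne h1 h2
  obtain ⟨j, hj1, hj2⟩ := h3
  exact ⟨j, fun i hi => hj1 i hi, hj2⟩

/-- comparison of two monomials -/
private theorem key {n : ℕ} (g : Fin (n + 1) → ℝ) (a b : Fin (n + 1) → ℕ) (j : Fin (n + 1))
    (h1 : ∀ i, 1 ≤ g i) (hlt : ∀ i < j, b i = a i) (hj : b j < a j)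
    (hbig : ∀ i, j < i → g i ^ (b i * (n + 1)) ≤ g j) :
    ((∏ i, g i ^ b i) / (∏ i, g i ^ a i)) ^ (n + 1) ≤ (g j)⁻¹ := by
  have hpos : ∀ i, 0 < g i := fun i => lt_of_lt_of_le one_pos (h1 i)
  set d : Fin (n + 1) → ℝ := fun i => if i = j then ((g j) ^ (n + 1))⁻¹ else g j with hd
  have hfac : ∀ i ∈ (Finset.univ : Finset (Fin (n + 1))),
      g i ^ (b i * (n + 1)) ≤ g i ^ (a i * (n + 1)) * d i := by
    intro i _
    by_cases hij : i = j
    · subst hij
      simp only [hd, if_true]
      rw [← div_eq_mul_inv, le_div_iff₀ (pow_pos (hpos i) _), ← pow_add]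
      apply pow_le_pow_right₀ (h1 i)
      nlinarith
    · simp only [hd, if_neg hij]
      rcases lt_or_gt_of_ne hij with h | h
      · rw [hlt i h]
        exact le_mul_of_one_le_right (le_of_lt (pow_pos (hpos i) _)) (h1 j)
      · calc g i ^ (b i * (n + 1)) ≤ g j := hbig i h
          _ ≤ g i ^ (a i * (n + 1)) * g j :=
            le_mul_of_one_le_left (le_of_lt (hpos j)) (one_le_pow₀ (h1 i))
  have hprod := Finset.prod_le_prod (fun i _ => le_of_lt (pow_pos (hpos i) _)) hfac
  have hdprod : ∏ i, d i = (g j)⁻¹ := by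
    rw [← Finset.mul_prod_erase Finset.univ d (Finset.mem_univ j)]
    have h2 : ∏ x ∈ Finset.univ.erase j, d x = g j ^ n := by
      rw [Finset.prod_congr rfl (g := fun _ => g j)]
      · rw [Finset.prod_const, Finset.card_erase_of_mem (Finset.mem_univ j)]
        simp
      · intro i hi
        simp only [hd, if_neg (Finset.ne_of_mem_erase hi)]
    rw [h2]
    simp only [hd, if_true]
    have := (hpos j).ne'
    rw [pow_succ]
    field_simp
  rw [Finset.prod_mul_distrib, hdprod] at hprod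
  rw [div_pow, div_le_iff₀ (pow_pos (Finset.prod_pos fun i _ => pow_pos (hpos i) _) _),
    ← Finset.prod_pow, ← Finset.prod_pow, mul_comm]
  simpa only [pow_mul] using hprod

theorem hIC : StIC := by
  intro n g hg hbig P hP
  obtain ⟨a, ha, hmax⟩ := lexmax P.support (MvPolynomial.support_nonempty.mpr hP)
  have hone : ∀ᶠ x in atTop, ∀ i, 1 ≤ g i x := by
    rw [eventually_all]
    exact fun i => (hg i).eventually_ge_atTop 1
  have hlo : ∀ b ∈ P.support.erase a,
      (fun x => P.coeff b * ∏ i, g i x ^ b i) =o[atTop] (fun x => ∏ i, g i x ^ a i) := by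
    intro b hb
    obtain ⟨hba, hbs⟩ := Finset.mem_erase.mp hb
    obtain ⟨j, hj1, hj2⟩ := hmax b hbs hba
    apply Asymptotics.IsLittleO.const_mul_left
    have hall : ∀ᶠ x in atTop, ∀ i, j < i → g i x ^ (b i * (n + 1)) ≤ g j x := by
      rw [eventually_all]
      intro i
      by_cases hji : j < i
      · filter_upwards [hbig j i hji (b i * (n + 1))] with x hx _ using hx
      · exact Eventually.of_forall fun x h => absurd h hji
    rw [Asymptotics.isLittleO_iff]
    intro c hc
    have hc' : 0 < c ^ (n + 1) := pow_pos hc _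
    have hev : ∀ᶠ x in atTop, (g j x)⁻¹ < c ^ (n + 1) := by
      have := (tendsto_inv_atTop_zero.comp (hg j)).eventually (gt_mem_nhds hc')
      simpa using this
    filter_upwards [hone, hall, hev] with x h1 h2 h3
    have hk := key (fun i => g i x) (fun i => a i) (fun i => b i) j h1 hj1 hj2 h2
    have hp : ∀ e : Fin (n + 1) → ℕ, 0 < ∏ i, g i x ^ e i := fun e =>
      Finset.prod_pos fun i _ => pow_pos (lt_of_lt_of_le one_pos (h1 i)) _
    have h4 : (∏ i, g i x ^ b i) / (∏ i, g i x ^ a i) < c :=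
      lt_of_pow_lt_pow_left₀ (n + 1) hc.le (lt_of_le_of_lt hk h3)
    rw [Real.norm_of_nonneg (hp b).le, Real.norm_of_nonneg (hp a).le]
    rw [div_lt_iff₀ (hp a)] at h4
    exact h4.le
  have hsum := Asymptotics.IsLittleO.sum hlo
  have hca : P.coeff a ≠ 0 := MvPolynomial.mem_support_iff.mp ha
  have hev := (Asymptotics.isLittleO_iff.mp hsum) (half_pos (abs_pos.mpr hca))
  filter_upwards [hone, hev] with x h1 h2
  have hp : 0 < ∏ i, g i x ^ a i :=
    Finset.prod_pos fun i _ => pow_pos (lt_of_lt_of_le one_pos (h1 i)) _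
  have heval : MvPolynomial.eval (fun i => g i x) P =
      P.coeff a * ∏ i, g i x ^ a i + ∑ b ∈ P.support.erase a, P.coeff b * ∏ i, g i x ^ b i := by
    rw [MvPolynomial.eval_eq', ← Finset.add_sum_erase _ _ ha]
  rw [heval]
  intro h0
  have h3 : |P.coeff a| * ∏ i, g i x ^ a i =
      ‖∑ b ∈ P.support.erase a, P.coeff b * ∏ i, g i x ^ b i‖ := by
    have h5 : P.coeff a * ∏ i, g i x ^ a i =
        -∑ b ∈ P.support.erase a, P.coeff b * ∏ i, g i x ^ b i := eq_neg_of_add_eq_zero_left h0
    have h6 := congrArg abs h5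
    rw [abs_neg, abs_mul, abs_of_pos hp] at h6
    rw [Real.norm_eq_abs, h6]
  rw [Finset.sum_apply, ← h3, Real.norm_of_nonneg hp.le] at h2
  nlinarith [mul_pos (abs_pos.mpr hca) hp]

end Pool.Agent.Helper14.HG
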